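import Pool.Agent.N352.PJ.Loc

/-!
# Project PJ (helper352), part REC: preparations

By helper622.
-/

set_option autoImplicit false
set_option linter.all false

open Polynomial IsDedekindDomain Matrix WithZero
open scoped Classical

namespace Pool.Agent.N622.PJ

open Pool.Agent.N874.PP (Ov Ev Sq1 U0)
open Pool.Agent.N352.PJ

/-! ### Residues -/

section res

variable {k : Type} [Field k]

/-- the residue as a linear map -/
noncomputable def resL (P : k[X]) : k[X] →ₗ[k] k :=
  (Polynomial.lcoeff k (P.natDegree - 1)) ∘ₗ (Polynomial.modByMonicHom P)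

theorem resL_apply (P a : k[X]) : resL P a = res P a := rfl

theorem res_dvd {P a : k[X]} (hP : P.Monic) (h : P ∣ a) : res P a = 0 := by
  rw [res, (Polynomial.modByMonic_eq_zero_iff_dvd hP).2 h, coeff_zero]

theorem res_congr {P a b : k[X]} (hP : P.Monic) (h : P ∣ a - b) : res P a = res P b := by
  rw [← resL_apply, ← resL_apply, ← sub_eq_zero, ← map_sub, resL_apply, res_dvd hP h]

theorem dvd_of_res {P a : k[X]} (hP : P.Monic) (h : ∀ c, res P (c * a) = 0) : P ∣ a := by
  rw [← Polynomial.modByMonic_eq_zero_iff_dvd hP]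
  by_contra hr
  set r := a %ₘ P with hrd
  have hP1 : P ≠ 1 := by
    intro h1
    apply hr
    rw [hrd, h1, modByMonic_one]
  have hdeg : r.degree < P.degree := degree_modByMonic_lt a hP
  have hnd : r.natDegree < P.natDegree := natDegree_lt_natDegree hr hdeg
  have h1 : res P (X ^ (P.natDegree - 1 - r.natDegree) * r) = 0 := by
    rw [← h (X ^ (P.natDegree - 1 - r.natDegree))]
    apply res_congr hP
    rw [← mul_sub]
    apply Dvd.dvd.mul_left
    have h2 : r - a = - (P * (a /ₘ P)) := by
      have := modByMonic_add_div a P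
      rw [← hrd] at this
      linear_combination this
    rw [h2]
    exact (Dvd.intro _ rfl).neg_right
  rw [res] at h1
  have h3 : (X ^ (P.natDegree - 1 - r.natDegree) * r) %ₘ P = X ^ (P.natDegree - 1 - r.natDegree) * r := by
    rw [modByMonic_eq_self_iff hP]
    rw [degree_eq_natDegree (mul_ne_zero (pow_ne_zero _ X_ne_zero) hr), degree_eq_natDegree hP.ne_zero]
    rw [natDegree_mul (pow_ne_zero _ X_ne_zero) hr, natDegree_X_pow]
    norm_cast
    omega
  rw [h3] at h1
  have h4 : P.natDegree - 1 = r.natDegree + (P.natDegree - 1 - r.natDegree) := by omega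
  rw [mul_comm] at h1
  rw [h4] at h1
  rw [show r.natDegree + (P.natDegree - 1 - r.natDegree) - r.natDegree = P.natDegree - 1 - r.natDegree by omega,
    coeff_mul_X_pow] at h1
  exact hr (leadingCoeff_eq_zero.1 h1)

end res


/-! ### Coordinates -/

section co

variable {k K L O : Type} [Field k] [Field K] [Algebra k[X] K] [IsFractionRing k[X] K]
  [Field L] [Algebra K L] [Algebra k[X] L] [IsScalarTower k[X] K L] [CommRing O]
  [IsDedekindDomain O] [Algebra O L] [IsFractionRing O L] [Algebra k[X] O]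
  [IsScalarTower k[X] O L] [IsIntegralClosure O k[X] L] {g : ℕ} {f : k[X][X]} {θ : L}

theorem mapO (p : k[X]) : algebraMap O L (algebraMap k[X] O p) = algebraMap k[X] L p :=
  (IsScalarTower.algebraMap_apply k[X] O L p).symm

theorem mapK (p : k[X]) : algebraMap K L (algebraMap k[X] K p) = algebraMap k[X] L p :=
  (IsScalarTower.algebraMap_apply k[X] K L p).symm

/-- the coordinates from those over `K` -/
theorem repr_crd (hG : IsGen g K f θ) {v : Fin (2 * g + 1) → k[X]} {x : L} (hx : Crd g θ v x)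
    (i : Fin (2 * g + 1)) : hG.basis.repr x i = algebraMap k[X] K (v i) := by
  have h1 : x = ∑ i, algebraMap k[X] K (v i) • hG.basis i := by
    rw [hx]
    refine Finset.sum_congr rfl fun i _ => ?_
    rw [hG.basis_apply, Algebra.smul_def, mapK]
  rw [h1, hG.basis.repr_sum_self]

theorem top_crd (hG : IsGen g K f θ) {v : Fin (2 * g + 1) → k[X]} {x : L} (hx : Crd g θ v x) :
    hG.top x = algebraMap k[X] K (v (Fin.last (2 * g))) := by
  rw [IsGen.top, Module.Basis.coord_apply, repr_crd hG hx]

theorem crd_uniq (hG : IsGen g K f θ) {v w : Fin (2 * g + 1) → k[X]} {x : L} (hv : Crd g θ v x)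
    (hw : Crd g θ w x) : v = w := by
  funext i
  apply IsFractionRing.injective k[X] K
  rw [← repr_crd hG hv, ← repr_crd hG hw]

theorem crd_add {v w : Fin (2 * g + 1) → k[X]} {x y : L} (hv : Crd g θ v x) (hw : Crd g θ w y) :
    Crd g θ (v + w) (x + y) := by
  rw [Crd, hv, hw, ← Finset.sum_add_distrib]
  refine Finset.sum_congr rfl fun i _ => ?_
  rw [Pi.add_apply, map_add, add_mul]

theorem crd_smul {v : Fin (2 * g + 1) → k[X]} {x : L} (c : k[X]) (hv : Crd g θ v x) :
    Crd g θ (c • v) (algebraMap k[X] L c * x) := by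
  rw [Crd, hv, Finset.mul_sum]
  refine Finset.sum_congr rfl fun i _ => ?_
  rw [Pi.smul_apply, smul_eq_mul, map_mul, mul_assoc]

theorem exO (hI : S_INT) (hG : IsGen g K f θ) (hsq : Squarefree (dsc g f)) (z : O) :
    ∃ v : Fin (2 * g + 1) → k[X], Crd g θ v (algebraMap O L z) :=
  (hI g k K L f θ hG hsq _).1 ((IsIntegralClosure.isIntegral_iff (A := O)).2 ⟨z, rfl⟩)

theorem ofCrd (hI : S_INT) (hG : IsGen g K f θ) (hsq : Squarefree (dsc g f))
    {v : Fin (2 * g + 1) → k[X]} {x : L} (hv : Crd g θ v x) : ∃ z : O, algebraMap O L z = x :=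
  (IsIntegralClosure.isIntegral_iff (A := O)).1 ((hI g k K L f θ hG hsq _).2 ⟨v, hv⟩)

theorem theta_ex (hG : IsGen g K f θ) : ∃ t : O, algebraMap O L t = θ :=
  (IsIntegralClosure.isIntegral_iff (R := k[X]) (A := O)).1 ⟨f, hG.mon, hG.root⟩

/-- the coordinates of an integral element -/
noncomputable def co (hI : S_INT) (hG : IsGen g K f θ) (hsq : Squarefree (dsc g f)) :
    O →ₗ[k[X]] (Fin (2 * g + 1) → k[X]) where
  toFun z := (exO hI hG hsq z).choose
  map_add' x y := by
    apply crd_uniq hG (exO hI hG hsq (x + y)).choose_spec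
    rw [map_add]
    exact crd_add (exO hI hG hsq x).choose_spec (exO hI hG hsq y).choose_spec
  map_smul' c x := by
    apply crd_uniq hG (exO hI hG hsq (c • x)).choose_spec
    have h1 : algebraMap O L (c • x) = algebraMap k[X] L c * algebraMap O L x := by
      rw [Algebra.smul_def, map_mul, mapO]
    rw [h1]
    exact crd_smul c (exO hI hG hsq x).choose_spec

theorem co_spec (hI : S_INT) (hG : IsGen g K f θ) (hsq : Squarefree (dsc g f)) (z : O) :
    Crd g θ (co hI hG hsq z) (algebraMap O L z) :=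
  (exO hI hG hsq z).choose_spec

/-- the coefficient of `θ ^ (2 g)` -/
noncomputable def tp (hI : S_INT) (hG : IsGen g K f θ) (hsq : Squarefree (dsc g f)) :
    O →ₗ[k[X]] k[X] := (LinearMap.proj (Fin.last (2 * g))) ∘ₗ co hI hG hsq

theorem tp_apply (hI : S_INT) (hG : IsGen g K f θ) (hsq : Squarefree (dsc g f)) (z : O) :
    tp hI hG hsq z = co hI hG hsq z (Fin.last (2 * g)) := rfl

theorem tp_spec (hI : S_INT) (hG : IsGen g K f θ) (hsq : Squarefree (dsc g f)) (z : O) :
    algebraMap k[X] K (tp hI hG hsq z) = hG.top (algebraMap O L z) := by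
  rw [top_crd hG (co_spec hI hG hsq z)]; rfl

/-- divisibility by a polynomial -/
theorem dvd_co (hI : S_INT) (hG : IsGen g K f θ) (hsq : Squarefree (dsc g f)) {P : k[X]} {z : O}
    (h : algebraMap k[X] O P ∣ z) (i : Fin (2 * g + 1)) : P ∣ co hI hG hsq z i := by
  obtain ⟨w, rfl⟩ := h
  rw [← Algebra.smul_def, map_smul]
  exact Dvd.intro _ rfl

theorem dvd_tp (hI : S_INT) (hG : IsGen g K f θ) (hsq : Squarefree (dsc g f)) {P : k[X]} {z : O}
    (h : algebraMap k[X] O P ∣ z) : P ∣ tp hI hG hsq z := dvd_co hI hG hsq h _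

theorem dvd_of_co (hI : S_INT) (hG : IsGen g K f θ) (hsq : Squarefree (dsc g f)) {P : k[X]} {z : O}
    (h : ∀ i, P ∣ co hI hG hsq z i) : algebraMap k[X] O P ∣ z := by
  choose v hv using h
  have h1 : Crd g θ v (∑ i, algebraMap k[X] L (v i) * θ ^ (i : ℕ)) := rfl
  obtain ⟨w, hw⟩ := ofCrd (O := O) hI hG hsq h1
  refine ⟨w, IsFractionRing.injective O L ?_⟩
  rw [co_spec hI hG hsq z, map_mul, hw, mapO, Finset.mul_sum]
  refine Finset.sum_congr rfl fun i _ => ?_
  rw [hv, map_mul, mul_assoc]

/-- low degree: the top coefficient is zero -/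
theorem co_low (hI : S_INT) (hG : IsGen g K f θ) (hsq : Squarefree (dsc g f)) {t : O}
    (ht : algebraMap O L t = θ) (v : Fin (2 * g + 1) → k[X]) :
    co hI hG hsq (∑ i, algebraMap k[X] O (v i) * t ^ (i : ℕ)) = v := by
  apply crd_uniq hG (co_spec hI hG hsq _)
  rw [map_sum, Crd]
  refine Finset.sum_congr rfl fun i _ => ?_
  rw [map_mul, map_pow, mapO, ht]

theorem co_sum (hI : S_INT) (hG : IsGen g K f θ) (hsq : Squarefree (dsc g f)) {t : O}
    (ht : algebraMap O L t = θ) (z : O) :
    z = ∑ i, algebraMap k[X] O (co hI hG hsq z i) * t ^ (i : ℕ) := by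
  apply IsFractionRing.injective O L
  rw [map_sum]
  conv_lhs => rw [co_spec hI hG hsq z]
  refine Finset.sum_congr rfl fun i _ => ?_
  rw [map_mul, map_pow, mapO, ht]

/-- the coordinates of a power of `θ` -/
theorem tp_pow (hI : S_INT) (hG : IsGen g K f θ) (hsq : Squarefree (dsc g f)) {t : O}
    (ht : algebraMap O L t = θ) {m : ℕ} (hm : m ≤ 2 * g) :
    tp hI hG hsq (t ^ m) = if m = 2 * g then 1 else 0 := by
  have h1 := co_low hI hG hsq ht (Pi.single (⟨m, by omega⟩ : Fin (2 * g + 1)) 1)
  have h2 : (∑ i : Fin (2 * g + 1), algebraMap k[X] O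
      ((Pi.single (⟨m, by omega⟩ : Fin (2 * g + 1)) (1 : k[X]) : Fin (2 * g + 1) → k[X]) i) *
        t ^ (i : ℕ)) = t ^ m := by
    rw [Finset.sum_eq_single (⟨m, by omega⟩ : Fin (2 * g + 1))]
    · simp
    · intro b _ hb
      rw [Pi.single_eq_of_ne hb, map_zero, zero_mul]
    · intro h; exact absurd (Finset.mem_univ _) h
  rw [h2] at h1
  rw [tp_apply, h1, Pi.single_apply]
  congr 1
  rw [Fin.ext_iff, Fin.val_last]
  exact propext eq_comm

/-- divisibility from the top coefficients -/
theorem dvd_of_top (hI : S_INT) (hG : IsGen g K f θ) (hsq : Squarefree (dsc g f)) {t : O}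
    (ht : algebraMap O L t = θ) {P : k[X]} {z : O}
    (h : ∀ m ≤ 2 * g, P ∣ tp hI hG hsq (z * t ^ m)) : algebraMap k[X] O P ∣ z := by
  apply dvd_of_co hI hG hsq
  have key : ∀ n : ℕ, ∀ i : Fin (2 * g + 1), 2 * g - (i : ℕ) = n → P ∣ co hI hG hsq z i := by
    intro n
    induction n using Nat.strong_induction_on with
    | _ n ih =>
      intro i hi
      have hi2 := i.2
      have h1 := h (2 * g - i) (by omega)
      have h2 : z * t ^ (2 * g - (i : ℕ)) = ∑ j : Fin (2 * g + 1),
          (co hI hG hsq z j) • t ^ ((j : ℕ) + (2 * g - (i : ℕ))) := by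
        conv_lhs => rw [co_sum hI hG hsq ht z]
        rw [Finset.sum_mul]
        refine Finset.sum_congr rfl fun j _ => ?_
        rw [Algebra.smul_def, pow_add, mul_assoc]
      rw [h2, map_sum, ← Finset.add_sum_erase _ _ (Finset.mem_univ i)] at h1
      have h3 : P ∣ ∑ j ∈ Finset.univ.erase i, tp hI hG hsq
          ((co hI hG hsq z j) • t ^ ((j : ℕ) + (2 * g - (i : ℕ)))) := by
        refine Finset.dvd_sum fun j hj => ?_
        rw [map_smul, smul_eq_mul]
        rcases lt_trichotomy (j : ℕ) (i : ℕ) with hlt | heq | hgt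
        · rw [tp_pow hI hG hsq ht (by omega), if_neg (by omega), mul_zero]
          exact dvd_zero _
        · exact absurd (Fin.ext heq) (Finset.ne_of_mem_erase hj)
        · have hj2 := j.2
          exact Dvd.dvd.mul_right (ih (2 * g - (j : ℕ)) (by omega) j rfl) _
      rw [dvd_add_left h3, map_smul, smul_eq_mul,
        show (i : ℕ) + (2 * g - (i : ℕ)) = 2 * g by omega, tp_pow hI hG hsq ht le_rfl, if_pos rfl,
        mul_one] at h1
      exact h1
  exact fun i => key _ i rfl

end co

end Pool.Agent.N622.PJ
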