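import Pool.Agent.N622.PJ.RecA

/-!
# Project PJ (helper352), part REC: the primes

By helper622.
-/

set_option autoImplicit false
set_option linter.all false

open Polynomial IsDedekindDomain Matrix WithZero
open scoped Classical

namespace Pool.Agent.N622.PJ

open Pool.Agent.N874.PP (Ov Ev Sq1 U0)
open Pool.Agent.N352.PJ

section gen

variable {O L : Type} [CommRing O] [IsDedekindDomain O] [Field L] [Algebra O L]
    [IsFractionRing O L]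

/-- approximation -/
theorem crt (T : Finset (HeightOneSpectrum O)) (e : HeightOneSpectrum O → O) :
    ∃ y : O, ∀ 𝔓 ∈ T, y - e 𝔓 ∈ 𝔓.asIdeal := by
  obtain ⟨y, hy⟩ := IsDedekindDomain.exists_forall_sub_mem_ideal (s := T)
    (fun 𝔓 : HeightOneSpectrum O => 𝔓.asIdeal) (fun _ => 1) (fun 𝔓 _ => 𝔓.prime)
    (fun i _ j _ hij h => hij (HeightOneSpectrum.ext h)) (fun i => e i)
  refine ⟨y, fun 𝔓 h => ?_⟩
  have := hy 𝔓 h
  rwa [pow_one] at this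

/-- approximation of elements of the field -/
theorem crtL (T : Finset (HeightOneSpectrum O)) (x : L) (hx : ∀ 𝔓 ∈ T, 𝔓.valuation L x ≤ 1) :
    ∃ y : O, ∀ 𝔓 ∈ T, 𝔓.valuation L (algebraMap O L y - x) < 1 := by
  have h1 : ∀ 𝔓 : HeightOneSpectrum O, ∃ z : O, 𝔓 ∈ T → 𝔓.valuation L (algebraMap O L z - x) < 1 := by
    intro 𝔓
    by_cases h : 𝔓 ∈ T
    · obtain ⟨z, hz⟩ := 𝔓.exists_valuation_sub_lt_of_integer (hx 𝔓 h) 1
      exact ⟨z, fun _ => hz⟩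
    · exact ⟨0, fun h' => absurd h' h⟩
  choose e he using h1
  obtain ⟨y, hy⟩ := crt T e
  refine ⟨y, fun 𝔓 h => ?_⟩
  have h2 : algebraMap O L y - x = algebraMap O L (y - e 𝔓) + (algebraMap O L (e 𝔓) - x) := by
    rw [map_sub]; ring
  rw [h2]
  exact Valuation.map_add_lt _ ((𝔓.valuation_lt_one_iff_mem _).2 (hy 𝔓 h)) (he 𝔓 h)

theorem val_ne (𝔓 : HeightOneSpectrum O) {x : L} (hx : x ≠ 0) : 𝔓.valuation L x ≠ 0 :=
  (Valuation.ne_zero_iff _).2 hx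

/-- the value as a power -/
theorem val_exp (𝔓 : HeightOneSpectrum O) {x : L} (hx : x ≠ 0) :
    ∃ n : ℤ, 𝔓.valuation L x = exp (-n) := by
  have h := val_ne 𝔓 hx
  refine ⟨-(log (𝔓.valuation L x)), ?_⟩
  rw [neg_neg, exp_log h]

/-- the reduction of an element -/
theorem mem_iff_val (𝔓 : HeightOneSpectrum O) (z : O) :
    z ∈ 𝔓.asIdeal ↔ 𝔓.valuation L (algebraMap O L z) < 1 :=
  (𝔓.valuation_lt_one_iff_mem z).symm

theorem val_le (𝔓 : HeightOneSpectrum O) (z : O) : 𝔓.valuation L (algebraMap O L z) ≤ 1 :=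
  𝔓.valuation_le_one z

theorem lt_one_iff {v : WithZero (Multiplicative ℤ)} : v < 1 ↔ v ≤ exp (-1 : ℤ) := by
  by_cases h : v = 0
  · subst h; simp
  · obtain ⟨n, rfl⟩ : ∃ n : ℤ, v = exp n := ⟨log v, (exp_log h).symm⟩
    rw [← exp_zero, exp_lt_exp, exp_le_exp]
    omega

theorem sq_lt_sq {a b : WithZero (Multiplicative ℤ)} (h : a < b) : a ^ 2 < b ^ 2 := by
  have hb : 0 < b := lt_of_le_of_lt zero_le' h
  rw [pow_two, pow_two]
  exact mul_lt_mul'' h h zero_le' zero_le'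

theorem le_of_sq_le {a b : WithZero (Multiplicative ℤ)} (h : a ^ 2 ≤ b ^ 2) : a ≤ b := by
  by_contra hc
  exact absurd h (not_le.2 (sq_lt_sq (not_le.1 hc)))

theorem le_of_mul_le {a b c : WithZero (Multiplicative ℤ)} (h : a ^ 2 ≤ c) (h' : b ^ 2 ≤ c) :
    a * b ≤ c := by
  rcases le_total a b with hab | hab
  · calc a * b ≤ b * b := mul_le_mul_left hab b
      _ = b ^ 2 := (pow_two b).symm
      _ ≤ c := h'
  · calc a * b ≤ a * a := mul_le_mul_right hab a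
      _ = a ^ 2 := (pow_two a).symm
      _ ≤ c := h

/-- the ultrametric inequality for the squares -/
theorem sum_sq_le (𝔓 : HeightOneSpectrum O) {ι : Type} (s : Finset ι) (x : ι → L)
    (γ : WithZero (Multiplicative ℤ)) (h : ∀ i ∈ s, 𝔓.valuation L (x i) ^ 2 ≤ γ) :
    𝔓.valuation L (∑ i ∈ s, x i) ^ 2 ≤ γ := by
  induction s using Finset.induction_on with
  | empty => simp
  | insert a s ha ih =>
    rw [Finset.sum_insert ha]
    have h1 := ih fun i hi => h i (Finset.mem_insert_of_mem hi)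
    have h2 := h a (Finset.mem_insert_self a s)
    have h3 := (𝔓.valuation L).map_add (x a) (∑ i ∈ s, x i)
    rcases le_max_iff.1 h3 with h4 | h4
    · exact (pow_le_pow_left₀ zero_le' h4 2).trans h2
    · exact (pow_le_pow_left₀ zero_le' h4 2).trans h1

end gen

/-! ### Squares -/

section sq

variable {O L : Type} [CommRing O] [IsDedekindDomain O] [Field L] [Algebra O L]
    [IsFractionRing O L] {𝔓 : HeightOneSpectrum O}

theorem sq1_mul_sq {x w : L} (hw : w ≠ 0) : Sq1 𝔓 (x * w ^ 2) ↔ Sq1 𝔓 x := by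
  have hw0 : 0 < 𝔓.valuation L w ^ 2 := by
    have : 𝔓.valuation L w ≠ 0 := (Valuation.ne_zero_iff _).mpr hw
    exact zero_lt_iff.mpr (pow_ne_zero 2 this)
  constructor
  · rintro ⟨s, hs⟩
    refine ⟨s / w, ?_⟩
    have e : x * w ^ 2 - s ^ 2 = (x - (s / w) ^ 2) * w ^ 2 := by
      field_simp
    rw [e, map_mul, map_mul, map_pow] at hs
    exact (mul_lt_mul_iff_left₀ hw0).mp hs
  · rintro ⟨s, hs⟩
    refine ⟨s * w, ?_⟩
    have e : x * w ^ 2 - (s * w) ^ 2 = (x - s ^ 2) * w ^ 2 := by ring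
    rw [e, map_mul, map_mul, map_pow]
    exact (mul_lt_mul_iff_left₀ hw0).mpr hs

/-- `x` is a square times an element near `1` -/
theorem sq1_iff {x : L} : Sq1 𝔓 x ↔ ∃ s : L, s ≠ 0 ∧ 𝔓.valuation L (x / s ^ 2 - 1) < 1 := by
  constructor
  · rintro ⟨s, hs⟩
    have hs0 : s ≠ 0 := by
      rintro rfl
      simp at hs
    have hv : 𝔓.valuation L x = 𝔓.valuation L (s ^ 2) := by
      have h1 : 𝔓.valuation L (x - (x - s ^ 2)) = 𝔓.valuation L x :=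
        Valuation.map_sub_eq_of_lt_left _ hs
      rw [sub_sub_cancel] at h1
      exact h1.symm
    refine ⟨s, hs0, ?_⟩
    have e : x / s ^ 2 - 1 = (x - s ^ 2) / s ^ 2 := by field_simp
    rw [e, map_div₀, div_lt_one₀ (zero_lt_iff.2 (val_ne 𝔓 (pow_ne_zero 2 hs0))), ← hv]
    exact hs
  · rintro ⟨s, hs0, hs⟩
    refine ⟨s, ?_⟩
    have hv : 𝔓.valuation L (x / s ^ 2) = 1 := by
      have h1 : 𝔓.valuation L ((x / s ^ 2 - 1) + 1) = 𝔓.valuation L 1 :=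
        Valuation.map_add_eq_of_lt_right _ (hs.trans_eq (𝔓.valuation L).map_one.symm)
      rw [sub_add_cancel, map_one] at h1
      exact h1
    rw [map_div₀, div_eq_one_iff_eq (val_ne 𝔓 (pow_ne_zero 2 hs0))] at hv
    have e : x / s ^ 2 - 1 = (x - s ^ 2) / s ^ 2 := by field_simp
    rw [e, map_div₀, div_lt_one₀ (zero_lt_iff.2 (val_ne 𝔓 (pow_ne_zero 2 hs0))), ← hv] at hs
    exact hs

/-- products -/
theorem sq1_mul {x y : L} (hx : Sq1 𝔓 x) (hy : Sq1 𝔓 y) : Sq1 𝔓 (x * y) := by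
  rw [sq1_iff] at hx hy ⊢
  obtain ⟨s, hs, h1⟩ := hx
  obtain ⟨t, ht, h2⟩ := hy
  refine ⟨s * t, mul_ne_zero hs ht, ?_⟩
  have e : x * y / (s * t) ^ 2 - 1 = (x / s ^ 2 - 1) * (y / t ^ 2 - 1) + (x / s ^ 2 - 1) +
      (y / t ^ 2 - 1) := by
    field_simp
    ring
  rw [e]
  refine Valuation.map_add_lt _ (Valuation.map_add_lt _ ?_ h1) h2
  rw [map_mul]
  exact mul_lt_one_of_nonneg_of_lt_one_left zero_le' h1 h2.le

/-- quotients -/
theorem sq1_of_mul {x y : L} (hy0 : y ≠ 0) (hxy : Sq1 𝔓 (x * y)) (hy : Sq1 𝔓 y) : Sq1 𝔓 x := by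
  have h := sq1_mul hxy hy
  rw [mul_assoc, ← pow_two, sq1_mul_sq hy0] at h
  exact h

theorem sq1_mul_iff {x y : L} (hy0 : y ≠ 0) (hy : Sq1 𝔓 y) : Sq1 𝔓 (x * y) ↔ Sq1 𝔓 x :=
  ⟨fun h => sq1_of_mul hy0 h hy, fun h => sq1_mul h hy⟩

/-- units -/
theorem isSquare_iff {u : O} (hu : u ∉ 𝔓.asIdeal) :
    IsSquare (Ideal.Quotient.mk 𝔓.asIdeal u) ↔ Sq1 𝔓 (algebraMap O L u) := by
  have hu1 : 𝔓.valuation L (algebraMap O L u) = 1 := 𝔓.valuation_eq_one_iff_notMem.2 hu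
  constructor
  · rintro ⟨r, hr⟩
    obtain ⟨s, rfl⟩ := Ideal.Quotient.mk_surjective r
    refine ⟨algebraMap O L s, ?_⟩
    rw [hu1, ← map_pow, ← map_sub]
    rw [← mem_iff_val, ← Ideal.Quotient.eq_zero_iff_mem, map_sub, hr, map_pow]
    ring
  · rintro ⟨s, hs⟩
    rw [hu1] at hs
    have hv : 𝔓.valuation L (s ^ 2) ≤ 1 := by
      have h1 : s ^ 2 = algebraMap O L u - (algebraMap O L u - s ^ 2) := by ring
      rw [h1]
      exact (Valuation.map_sub _ _ _).trans (max_le hu1.le hs.le)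
    have hs1 : 𝔓.valuation L s ≤ 1 := by
      apply le_of_sq_le
      rw [one_pow, ← map_pow]
      exact hv
    obtain ⟨r, hr⟩ := 𝔓.exists_valuation_sub_lt_of_integer hs1 1
    rw [Units.val_one] at hr
    refine ⟨Ideal.Quotient.mk _ r, ?_⟩
    rw [← map_mul, Ideal.Quotient.eq, mem_iff_val (L := L), map_sub, map_mul]
    have h2 : algebraMap O L u - algebraMap O L r * algebraMap O L r =
        (algebraMap O L u - s ^ 2) - (algebraMap O L r - s) * (algebraMap O L r + s) := by ring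
    rw [h2]
    refine lt_of_le_of_lt (Valuation.map_sub _ _ _) (max_lt hs ?_)
    rw [map_mul]
    refine mul_lt_one_of_nonneg_of_lt_one_left zero_le' hr ?_
    exact (Valuation.map_add _ _ _).trans (max_le (val_le 𝔓 r) hs1)

end sq


/-! ### The primes over `S₁` -/

section dat

variable {k K L O : Type} [Field k] [Field K] [Algebra k[X] K] [IsFractionRing k[X] K]
  [Field L] [Algebra K L] [Algebra k[X] L] [IsScalarTower k[X] K L] [CommRing O]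
  [IsDedekindDomain O] [Algebra O L] [IsFractionRing O L] [Algebra k[X] O]
  [IsScalarTower k[X] O L] [IsIntegralClosure O k[X] L] {g : ℕ} {f : k[X][X]} {θ : L}

/-- a prime over `Q` meets `k[X]` in `(Q)` -/
theorem ov_iff {Q : k[X]} (hQ : Irreducible Q) {𝔓 : HeightOneSpectrum O} (hov : Ov Q 𝔓)
    (c : k[X]) : algebraMap k[X] O c ∈ 𝔓.asIdeal ↔ Q ∣ c := by
  constructor
  · intro hc
    by_contra hn
    have hcop : IsCoprime Q c := (hQ.coprime_iff_not_dvd).mpr hn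
    obtain ⟨u, v, huv⟩ := hcop
    have : algebraMap k[X] O (u * Q + v * c) ∈ 𝔓.asIdeal := by
      rw [map_add, map_mul, map_mul]
      exact Ideal.add_mem _ (Ideal.mul_mem_left _ _ hov) (Ideal.mul_mem_left _ _ hc)
    rw [huv, map_one] at this
    exact 𝔓.isPrime.ne_top ((Ideal.eq_top_iff_one _).mpr this)
  · rintro ⟨d, rfl⟩
    rw [map_mul]
    exact Ideal.mul_mem_right _ _ hov

/-- two different monic irreducible polynomials do not lie in one prime -/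
theorem eq_of_ov {P Q : k[X]} (hP : P.Monic) (hPi : Irreducible P) (hQ : Q.Monic)
    (hQi : Irreducible Q) {𝔓 : HeightOneSpectrum O} (h1 : Ov P 𝔓) (h2 : Ov Q 𝔓) : P = Q := by
  have h3 : P ∣ Q := (ov_iff hPi h1 Q).1 h2
  exact Polynomial.eq_of_monic_of_associated hP hQ (hPi.associated_of_dvd hQi h3)

/-- the data -/
structure Dat (θ : L) (S₁ : Finset k[X]) (𝔮 𝔭 : k[X] → HeightOneSpectrum O) : Prop where
  inj : Function.Injective (algebraMap k[X] L)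
  mon : ∀ Q ∈ S₁, Q.Monic
  irr : ∀ Q ∈ S₁, Irreducible Q
  ovq : ∀ Q ∈ S₁, Ov Q (𝔮 Q)
  ovp : ∀ Q ∈ S₁, Ov Q (𝔭 Q)
  tq : ∀ Q ∈ S₁, (𝔮 Q).valuation L θ = 1
  tp : ∀ Q ∈ S₁, (𝔭 Q).valuation L θ < 1
  vq : ∀ Q ∈ S₁, (𝔮 Q).valuation L (algebraMap k[X] L Q) = exp (-1 : ℤ)
  vp : ∀ Q ∈ S₁, (𝔭 Q).valuation L (algebraMap k[X] L Q) = exp (-1 : ℤ)
  two : ∀ Q ∈ S₁, ∀ 𝔓 : HeightOneSpectrum O, Ov Q 𝔓 → 𝔓 = 𝔮 Q ∨ 𝔓 = 𝔭 Q

variable {S₁ : Finset k[X]} {𝔮 𝔭 : k[X] → HeightOneSpectrum O}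

theorem Dat.monP (D : Dat θ S₁ 𝔮 𝔭) : (∏ Q ∈ S₁, Q).Monic := monic_prod_of_monic _ _ D.mon

/-- the other polynomials are units -/
theorem Dat.val_other (D : Dat θ S₁ 𝔮 𝔭) {T : Finset k[X]} (hT : T ⊆ S₁) {𝔓 : HeightOneSpectrum O}
    (h : ∀ Q ∈ T, ¬ Ov Q 𝔓) : 𝔓.valuation L (algebraMap k[X] L (∏ Q ∈ T, Q)) = 1 := by
  rw [map_prod, map_prod]
  refine Finset.prod_eq_one fun Q hQ => ?_
  rw [IsScalarTower.algebraMap_apply k[X] O L, 𝔓.valuation_eq_one_iff_notMem]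
  exact h Q hQ

theorem Dat.eq (D : Dat θ S₁ 𝔮 𝔭) {Q Q' : k[X]} (hQ : Q ∈ S₁) (hQ' : Q' ∈ S₁)
    {𝔓 : HeightOneSpectrum O} (h1 : Ov Q 𝔓) (h2 : Ov Q' 𝔓) : Q = Q' :=
  eq_of_ov (D.mon Q hQ) (D.irr Q hQ) (D.mon Q' hQ') (D.irr Q' hQ') h1 h2

/-- the valuation of the product -/
theorem Dat.valP (D : Dat θ S₁ 𝔮 𝔭) {Q : k[X]} (hQ : Q ∈ S₁) {𝔓 : HeightOneSpectrum O}
    (h : Ov Q 𝔓) : 𝔓.valuation L (algebraMap k[X] L (∏ Q ∈ S₁, Q)) = exp (-1 : ℤ) := by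
  rw [← Finset.mul_prod_erase _ _ hQ, map_mul, map_mul,
    D.val_other (Finset.erase_subset _ _) (fun Q' hQ' h' => Finset.ne_of_mem_erase hQ'
      (D.eq (Finset.mem_of_mem_erase hQ') hQ h' h)), mul_one]
  rcases D.two Q hQ 𝔓 h with h1 | h1
  · rw [h1, D.vq Q hQ]
  · rw [h1, D.vp Q hQ]

theorem Dat.valP_le (D : Dat θ S₁ 𝔮 𝔭) (𝔓 : HeightOneSpectrum O) :
    𝔓.valuation L (algebraMap k[X] L (∏ Q ∈ S₁, Q)) ≤ 1 := by
  rw [IsScalarTower.algebraMap_apply k[X] O L]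
  exact 𝔓.valuation_le_one _

theorem Dat.P0 (D : Dat θ S₁ 𝔮 𝔭) : algebraMap k[X] L (∏ Q ∈ S₁, Q) ≠ 0 := by
  intro h0
  exact D.monP.ne_zero (D.inj (by rw [h0, map_zero]))

/-- divisibility by the product -/
theorem Dat.dvd (D : Dat θ S₁ 𝔮 𝔭) {y : O} (h : ∀ Q ∈ S₁, y ∈ (𝔮 Q).asIdeal ∧ y ∈ (𝔭 Q).asIdeal) :
    algebraMap k[X] O (∏ Q ∈ S₁, Q) ∣ y := by
  have hP0 : algebraMap k[X] L (∏ Q ∈ S₁, Q) ≠ 0 := D.P0
  have key : ∀ 𝔓 : HeightOneSpectrum O,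
      𝔓.valuation L (algebraMap O L y / algebraMap k[X] L (∏ Q ∈ S₁, Q)) ≤ 1 := by
    intro 𝔓
    rw [map_div₀, div_le_one₀ (zero_lt_iff.2 (val_ne 𝔓 hP0))]
    by_cases hov : ∃ Q ∈ S₁, Ov Q 𝔓
    · obtain ⟨Q, hQ, hv⟩ := hov
      rw [D.valP hQ hv, ← lt_one_iff, ← mem_iff_val]
      rcases D.two Q hQ 𝔓 hv with h1 | h1
      · rw [h1]; exact (h Q hQ).1
      · rw [h1]; exact (h Q hQ).2
    · push Not at hov
      rw [D.val_other (Finset.Subset.refl _) hov]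
      exact val_le 𝔓 y
  obtain ⟨w, hw⟩ := HeightOneSpectrum.mem_integers_of_valuation_le_one L _ key
  refine ⟨w, IsFractionRing.injective O L ?_⟩
  rw [map_mul, ← IsScalarTower.algebraMap_apply, hw]
  field_simp

theorem Dat.mem_of_dvd (D : Dat θ S₁ 𝔮 𝔭) {y : O} (h : algebraMap k[X] O (∏ Q ∈ S₁, Q) ∣ y)
    {Q : k[X]} (hQ : Q ∈ S₁) : y ∈ (𝔮 Q).asIdeal := by
  obtain ⟨w, rfl⟩ := h
  exact Ideal.mul_mem_right _ _ ((ov_iff (D.irr Q hQ) (D.ovq Q hQ) _).2 (Finset.dvd_prod_of_mem _ hQ))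

/-- the idempotent -/
theorem Dat.exists_eta (D : Dat θ S₁ 𝔮 𝔭) :
    ∃ η : O, ∀ Q ∈ S₁, η - 1 ∈ (𝔮 Q).asIdeal ∧ η ∈ (𝔭 Q).asIdeal := by
  obtain ⟨η, hη⟩ := crt (S₁.image 𝔮 ∪ S₁.image 𝔭) (fun 𝔓 => if 𝔓 ∈ S₁.image 𝔮 then 1 else 0)
  refine ⟨η, fun Q hQ => ⟨?_, ?_⟩⟩
  · have h1 : 𝔮 Q ∈ S₁.image 𝔮 := Finset.mem_image_of_mem 𝔮 hQ
    have h2 := hη (𝔮 Q) (Finset.mem_union_left _ h1)
    rwa [if_pos h1] at h2
  · have h1 : 𝔭 Q ∉ S₁.image 𝔮 := by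
      intro h
      obtain ⟨Q', hQ', h3⟩ := Finset.mem_image.1 h
      have h4 := D.tq Q' hQ'
      rw [h3] at h4
      exact absurd h4 (D.tp Q hQ).ne
    have h2 := hη (𝔭 Q) (Finset.mem_union_right _ (Finset.mem_image_of_mem 𝔭 hQ))
    rwa [if_neg h1, sub_zero] at h2

end dat

end Pool.Agent.N622.PJ
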