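import Pool.Agent.N622.PJ.RecB

/-!
# Project PJ (helper352), part REC: the functional on the residue fields

By helper622.
-/

set_option autoImplicit false
set_option linter.all false

open Polynomial IsDedekindDomain Matrix WithZero
open scoped Classical

namespace Pool.Agent.N622.PJ

open Pool.Agent.N874.PP (Ov Ev Sq1 U0)
open Pool.Agent.N352.PJ

/-! ### The residue fields -/

section ff

variable {k O : Type} [Field k] [CommRing O] [IsDedekindDomain O] [Algebra k[X] O]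

/-- the residue field -/
def FF (𝔓 : HeightOneSpectrum O) : Type := O ⧸ 𝔓.asIdeal

noncomputable instance (𝔓 : HeightOneSpectrum O) : Field (FF 𝔓) :=
  haveI := 𝔓.isMaximal
  Ideal.Quotient.field 𝔓.asIdeal

/-- the reduction -/
noncomputable def red (𝔓 : HeightOneSpectrum O) : O →+* FF 𝔓 := Ideal.Quotient.mk 𝔓.asIdeal

theorem red_surj (𝔓 : HeightOneSpectrum O) : Function.Surjective (red 𝔓) :=
  Ideal.Quotient.mk_surjective

theorem red_zero (𝔓 : HeightOneSpectrum O) (z : O) : red 𝔓 z = 0 ↔ z ∈ 𝔓.asIdeal :=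
  Ideal.Quotient.eq_zero_iff_mem

theorem red_eq (𝔓 : HeightOneSpectrum O) (z w : O) : red 𝔓 z = red 𝔓 w ↔ z - w ∈ 𝔓.asIdeal :=
  Ideal.Quotient.eq

variable (k) in
/-- the residue field over `k` -/
@[reducible] noncomputable def algF (𝔓 : HeightOneSpectrum O) : Algebra k (FF 𝔓) :=
  RingHom.toAlgebra ((red 𝔓).comp ((algebraMap k[X] O).comp C))

theorem algF_apply (𝔓 : HeightOneSpectrum O) (c : k) :
    @algebraMap k (FF 𝔓) _ _ (algF k 𝔓) c = red 𝔓 (algebraMap k[X] O (C c)) := rfl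

/-- the reduction modulo all primes -/
noncomputable def redA (S₁ : Finset k[X]) (𝔮 : k[X] → HeightOneSpectrum O) :
    O →+* (∀ i : S₁, FF (𝔮 i)) := Pi.ringHom fun i => red (𝔮 i)

theorem redA_apply (S₁ : Finset k[X]) (𝔮 : k[X] → HeightOneSpectrum O) (z : O) (i : S₁) :
    redA S₁ 𝔮 z i = red (𝔮 i) z := rfl

attribute [local instance] algF

theorem redA_smul (S₁ : Finset k[X]) (𝔮 : k[X] → HeightOneSpectrum O) (z : O) (c : k) :
    c • redA S₁ 𝔮 z = redA S₁ 𝔮 (algebraMap k[X] O (C c) * z) := by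
  funext i
  rw [Pi.smul_apply, Algebra.smul_def, redA_apply, redA_apply, map_mul]
  rfl

end ff

section lam

variable {k K L O : Type} [Field k] [Field K] [Algebra k[X] K] [IsFractionRing k[X] K]
  [Field L] [Algebra K L] [Algebra k[X] L] [IsScalarTower k[X] K L] [CommRing O]
  [IsDedekindDomain O] [Algebra O L] [IsFractionRing O L] [Algebra k[X] O]
  [IsScalarTower k[X] O L] [IsIntegralClosure O k[X] L] {g : ℕ} {f : k[X][X]} {θ : L}
  {S₁ : Finset k[X]} {𝔮 𝔭 : k[X] → HeightOneSpectrum O}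

/-- `res (top (η z))` -/
noncomputable def lam (hI : S_INT) (hG : IsGen g K f θ) (hsq : Squarefree (dsc g f))
    (S₁ : Finset k[X]) (η z : O) : k := res (∏ Q ∈ S₁, Q) (tp hI hG hsq (η * z))

variable (hI : S_INT) (hG : IsGen g K f θ) (hsq : Squarefree (dsc g f))

theorem lam_add (η z w : O) : lam hI hG hsq S₁ η (z + w) =
    lam hI hG hsq S₁ η z + lam hI hG hsq S₁ η w := by
  rw [lam, lam, lam, mul_add, map_add, ← resL_apply, ← resL_apply, ← resL_apply, map_add]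

theorem lam_smul (η z : O) (c : k) : lam hI hG hsq S₁ η (algebraMap k[X] O (C c) * z) =
    c * lam hI hG hsq S₁ η z := by
  rw [lam, lam, mul_left_comm, ← Algebra.smul_def, map_smul, ← resL_apply, ← resL_apply,
    smul_eq_mul, ← smul_eq_C_mul, map_smul, smul_eq_mul]

/-- congruences modulo `P` -/
theorem lam_congr (D : Dat θ S₁ 𝔮 𝔭) {η z w : O} (h : algebraMap k[X] O (∏ Q ∈ S₁, Q) ∣ η * z - w) :
    lam hI hG hsq S₁ η z = res (∏ Q ∈ S₁, Q) (tp hI hG hsq w) := by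
  rw [lam]
  apply res_congr D.monP
  rw [← map_sub]
  exact dvd_tp hI hG hsq h

/-- the functional depends only on the classes modulo the `𝔮 Q` -/
theorem lam_well (D : Dat θ S₁ 𝔮 𝔭) {η : O}
    (hη : ∀ Q ∈ S₁, η - 1 ∈ (𝔮 Q).asIdeal ∧ η ∈ (𝔭 Q).asIdeal) {z w : O}
    (h : redA S₁ 𝔮 z = redA S₁ 𝔮 w) : lam hI hG hsq S₁ η z = lam hI hG hsq S₁ η w := by
  rw [lam_congr hI hG hsq D (w := η * w), lam]
  rw [← mul_sub]
  apply D.dvd
  intro Q hQ
  constructor
  · apply Ideal.mul_mem_left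
    have h1 := congrFun h ⟨Q, hQ⟩
    rw [redA_apply, redA_apply, red_eq] at h1
    exact h1
  · exact Ideal.mul_mem_right _ _ (hη Q hQ).2

/-- the reduction is onto -/
theorem redA_surj (D : Dat θ S₁ 𝔮 𝔭) : Function.Surjective (redA S₁ 𝔮) := by
  intro z
  choose e he using fun i : S₁ => red_surj (𝔮 i) (z i)
  have hinj : ∀ i j : S₁, 𝔮 i = 𝔮 j → i = j := by
    intro i j hij
    have h1 := D.ovq i i.2
    rw [hij] at h1
    exact Subtype.ext (D.eq i.2 j.2 h1 (D.ovq j j.2))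
  obtain ⟨y, hy⟩ := crt (S₁.image 𝔮) (fun 𝔓 => if h : ∃ i : S₁, 𝔮 i = 𝔓 then e h.choose else 0)
  refine ⟨y, ?_⟩
  funext i
  have h1 := hy (𝔮 i) (Finset.mem_image_of_mem 𝔮 i.2)
  have hex : ∃ j : S₁, 𝔮 j = 𝔮 i := ⟨i, rfl⟩
  rw [dif_pos hex, ← red_eq, hinj _ _ hex.choose_spec, he] at h1
  exact h1

attribute [local instance] algF

/-- the functional -/
noncomputable def sL (D : Dat θ S₁ 𝔮 𝔭) {η : O}
    (hη : ∀ Q ∈ S₁, η - 1 ∈ (𝔮 Q).asIdeal ∧ η ∈ (𝔭 Q).asIdeal) :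
    (∀ i : S₁, FF (𝔮 i)) →ₗ[k] k where
  toFun z := lam hI hG hsq S₁ η (redA_surj D z).choose
  map_add' x y := by
    rw [← lam_add]
    apply lam_well hI hG hsq D hη
    rw [(redA_surj D (x + y)).choose_spec, map_add, (redA_surj D x).choose_spec,
      (redA_surj D y).choose_spec]
  map_smul' c x := by
    rw [RingHom.id_apply, smul_eq_mul, ← lam_smul]
    apply lam_well hI hG hsq D hη
    rw [(redA_surj D (c • x)).choose_spec, ← redA_smul, (redA_surj D x).choose_spec]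

theorem sL_redA (D : Dat θ S₁ 𝔮 𝔭) {η : O}
    (hη : ∀ Q ∈ S₁, η - 1 ∈ (𝔮 Q).asIdeal ∧ η ∈ (𝔭 Q).asIdeal) (z : O) :
    sL hI hG hsq D hη (redA S₁ 𝔮 z) = lam hI hG hsq S₁ η z :=
  lam_well hI hG hsq D hη (redA_surj D (redA S₁ 𝔮 z)).choose_spec

/-- the functional is nondegenerate -/
theorem sL_nondeg (D : Dat θ S₁ 𝔮 𝔭) {η : O}
    (hη : ∀ Q ∈ S₁, η - 1 ∈ (𝔮 Q).asIdeal ∧ η ∈ (𝔭 Q).asIdeal) (z : ∀ i : S₁, FF (𝔮 i))
    (h : ∀ t, sL hI hG hsq D hη (z * t) = 0) : z = 0 := by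
  obtain ⟨y, rfl⟩ := redA_surj D z
  obtain ⟨t, ht⟩ := theta_ex (O := O) hG
  have h1 : algebraMap k[X] O (∏ Q ∈ S₁, Q) ∣ η * y := by
    apply dvd_of_top hI hG hsq ht
    intro m _
    apply dvd_of_res D.monP
    intro c
    have h2 := h (redA S₁ 𝔮 (algebraMap k[X] O c * t ^ m))
    rw [← map_mul, sL_redA, lam] at h2
    rw [← h2]
    congr 1
    rw [← smul_eq_mul, ← map_smul, Algebra.smul_def]
    congr 1
    ring
  funext i
  rw [redA_apply, Pi.zero_apply, red_zero]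
  have h3 := D.mem_of_dvd h1 i.2
  have h4 : y = η * y - (η - 1) * y := by ring
  rw [h4]
  exact Ideal.sub_mem _ h3 (Ideal.mul_mem_right _ _ (hη i i.2).1)

end lam

end Pool.Agent.N622.PJ
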