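import Pool.Agent.N622.PJ.RecC

/-!
# Project PJ (helper352), part REC: the second Lagrangian

By helper622.
-/

set_option autoImplicit false
set_option linter.all false

open Polynomial IsDedekindDomain Matrix WithZero
open scoped Classical

namespace Pool.Agent.N622.PJ

open Pool.Agent.N874.PP (Ov Ev Sq1 U0)
open Pool.Agent.N352.PJ

section lag

variable {k K L O : Type} [Field k] [Field K] [Algebra k[X] K] [IsFractionRing k[X] K]
  [Field L] [Algebra K L] [Algebra k[X] L] [IsScalarTower k[X] K L] [CommRing O]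
  [IsDedekindDomain O] [Algebra O L] [IsFractionRing O L] [Algebra k[X] O]
  [IsScalarTower k[X] O L] [IsIntegralClosure O k[X] L] {g : ℕ} {f : k[X][X]} {θ : L}
  {S₁ : Finset k[X]} {𝔮 𝔭 : k[X] → HeightOneSpectrum O}

attribute [local instance] algF

theorem Dat.t_mem (D : Dat θ S₁ 𝔮 𝔭) {t : O} (ht : algebraMap O L t = θ) {Q : k[X]} (hQ : Q ∈ S₁) :
    t ∈ (𝔭 Q).asIdeal := by
  rw [mem_iff_val (L := L), ht]
  exact D.tp Q hQ

theorem Dat.t_notMem (D : Dat θ S₁ 𝔮 𝔭) {t : O} (ht : algebraMap O L t = θ) {Q : k[X]} (hQ : Q ∈ S₁) :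
    t ∉ (𝔮 Q).asIdeal := by
  rw [mem_iff_val (L := L), ht, D.tq Q hQ]
  exact lt_irrefl _

theorem co_pow (hI : S_INT) (hG : IsGen g K f θ) (hsq : Squarefree (dsc g f)) {t : O}
    (ht : algebraMap O L t = θ) {m : ℕ} (hm : m < 2 * g + 1) :
    co hI hG hsq (t ^ m) = Pi.single (⟨m, hm⟩ : Fin (2 * g + 1)) 1 := by
  have h1 := co_low hI hG hsq ht (Pi.single (⟨m, hm⟩ : Fin (2 * g + 1)) 1)
  have h2 : (∑ i : Fin (2 * g + 1), algebraMap k[X] O
      ((Pi.single (⟨m, hm⟩ : Fin (2 * g + 1)) (1 : k[X]) : Fin (2 * g + 1) → k[X]) i) *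
        t ^ (i : ℕ)) = t ^ m := by
    rw [Finset.sum_eq_single (⟨m, hm⟩ : Fin (2 * g + 1))]
    · simp
    · intro b _ hb
      rw [Pi.single_eq_of_ne hb, map_zero, zero_mul]
    · intro h; exact absurd (Finset.mem_univ _) h
  rw [h2] at h1
  exact h1

/-- the elements `t ^ l θ ^ i` -/
noncomputable def yO (g d : ℕ) (t : O) (a : Fin (g * d)) : O :=
  algebraMap k[X] O (X ^ ((finProdFinEquiv.symm a).2 : ℕ)) * t ^ ((finProdFinEquiv.symm a).1 : ℕ)

variable (hI : S_INT) (hG : IsGen g K f θ) (hsq : Squarefree (dsc g f))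

/-- the second Lagrangian is isotropic -/
theorem second_iso (D : Dat θ S₁ 𝔮 𝔭) {η : O}
    (hη : ∀ Q ∈ S₁, η - 1 ∈ (𝔮 Q).asIdeal ∧ η ∈ (𝔭 Q).asIdeal) {t : O}
    (ht : algebraMap O L t = θ) (d : ℕ) (a b : Fin (g * d)) :
    sL hI hG hsq D hη (redA S₁ 𝔮 t * redA S₁ 𝔮 (yO (k := k) g d t a) *
      redA S₁ 𝔮 (yO (k := k) g d t b)) = 0 := by
  rw [← map_mul, ← map_mul, sL_redA]
  set i := (finProdFinEquiv.symm a).1 with hi
  set l := (finProdFinEquiv.symm a).2 with hl
  set i' := (finProdFinEquiv.symm b).1 with hi'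
  set l' := (finProdFinEquiv.symm b).2 with hl'
  have e1 : t * yO (k := k) g d t a * yO (k := k) g d t b =
      (X ^ ((l : ℕ) + (l' : ℕ)) : k[X]) • t ^ (1 + (i : ℕ) + (i' : ℕ)) := by
    rw [yO, yO, ← hi, ← hl, ← hi', ← hl', Algebra.smul_def, pow_add, map_mul, pow_add, pow_add,
      pow_one]
    ring
  rw [lam_congr hI hG hsq D (w := t * yO (k := k) g d t a * yO (k := k) g d t b)]
  · rw [e1, map_smul, tp_pow hI hG hsq ht (by have := i.2; have := i'.2; omega),
      if_neg (by have := i.2; have := i'.2; omega), smul_zero, ← resL_apply, map_zero]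
  · apply D.dvd
    intro Q hQ
    have h1 : η * (t * yO (k := k) g d t a * yO (k := k) g d t b) -
        t * yO (k := k) g d t a * yO (k := k) g d t b =
        (η - 1) * (t * yO (k := k) g d t a * yO (k := k) g d t b) := by ring
    rw [h1]
    refine ⟨Ideal.mul_mem_right _ _ (hη Q hQ).1, ?_⟩
    rw [mul_assoc t]
    exact Ideal.mul_mem_left _ _ (Ideal.mul_mem_right _ _ (D.t_mem ht hQ))

theorem poly_zero {P : k[X]} (hP : P.Monic) (c : Fin P.natDegree → k)
    (h : P ∣ ∑ l, C (c l) * X ^ (l : ℕ)) : c = 0 := by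
  have hdeg : (∑ l : Fin P.natDegree, C (c l) * X ^ (l : ℕ)).degree < P.degree := by
    rw [degree_eq_natDegree hP.ne_zero]
    refine lt_of_le_of_lt (degree_sum_le _ _) ?_
    rw [Finset.sup_lt_iff (WithBot.bot_lt_coe _)]
    intro l _
    refine lt_of_le_of_lt (degree_C_mul_X_pow_le _ _) ?_
    exact_mod_cast l.2
  have h0 : (∑ l : Fin P.natDegree, C (c l) * X ^ (l : ℕ)) = 0 := by
    by_contra hne
    exact hP.not_dvd_of_degree_lt hne hdeg h
  funext l
  have h1 := congrArg (fun p => p.coeff (l : ℕ)) h0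
  simp only [finset_sum_coeff, coeff_C_mul, coeff_X_pow, coeff_zero] at h1
  rw [Finset.sum_eq_single l] at h1
  · simpa using h1
  · intro b _ hb
    rw [if_neg (fun h => hb (Fin.ext h.symm)), mul_zero]
  · intro h; exact absurd (Finset.mem_univ _) h

include hI hG hsq in
/-- the second Lagrangian is independent -/
theorem second_ind (D : Dat θ S₁ 𝔮 𝔭) {t : O} (ht : algebraMap O L t = θ) :
    LinearIndependent k (fun a : Fin (g * (∏ Q ∈ S₁, Q).natDegree) =>
      redA S₁ 𝔮 (yO (k := k) g (∏ Q ∈ S₁, Q).natDegree t a)) := by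
  set d := (∏ Q ∈ S₁, Q).natDegree with hd
  rw [Fintype.linearIndependent_iff]
  intro c hc
  simp only [redA_smul] at hc
  rw [← map_sum] at hc
  set w := ∑ a, algebraMap k[X] O (C (c a)) * yO (k := k) g d t a with hw
  have h1 : algebraMap k[X] O (∏ Q ∈ S₁, Q) ∣ t * w := by
    apply D.dvd
    intro Q hQ
    refine ⟨Ideal.mul_mem_left _ _ ?_, Ideal.mul_mem_right _ _ (D.t_mem ht hQ)⟩
    have h2 := congrFun hc ⟨Q, hQ⟩
    rw [redA_apply, Pi.zero_apply, red_zero] at h2
    exact h2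
  have h2 : t * w = ∑ p : Fin g × Fin d, (C (c (finProdFinEquiv p)) * X ^ (p.2 : ℕ)) •
      t ^ ((p.1 : ℕ) + 1) := by
    rw [hw, ← finProdFinEquiv.sum_comp, Finset.mul_sum]
    refine Finset.sum_congr rfl fun p _ => ?_
    rw [yO, Equiv.symm_apply_apply, Algebra.smul_def, map_mul, pow_succ]
    ring
  have h3 : ∀ i : Fin g, (∏ Q ∈ S₁, Q) ∣ ∑ l : Fin d, C (c (finProdFinEquiv (i, l))) * X ^ (l : ℕ) := by
    intro i
    have h4 := dvd_co hI hG hsq h1 (⟨(i : ℕ) + 1, by have := i.2; omega⟩ : Fin (2 * g + 1))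
    rw [h2, map_sum, Finset.sum_apply, Fintype.sum_prod_type, Finset.sum_eq_single i] at h4
    · have h5 : (∑ l : Fin d, C (c (finProdFinEquiv (i, l))) * X ^ (l : ℕ)) =
          ∑ l : Fin d, (co hI hG hsq ((C (c (finProdFinEquiv (i, l))) * X ^ (l : ℕ)) •
            t ^ ((i : ℕ) + 1))) (⟨(i : ℕ) + 1, by have := i.2; omega⟩ : Fin (2 * g + 1)) := by
        refine Finset.sum_congr rfl fun l _ => ?_
        rw [map_smul, Pi.smul_apply, co_pow hI hG hsq ht (by have := i.2; omega), Pi.single_eq_same,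
          smul_eq_mul, mul_one]
      rw [h5]
      exact h4
    · intro b _ hb
      refine Finset.sum_eq_zero fun l _ => ?_
      rw [map_smul, Pi.smul_apply, co_pow hI hG hsq ht (by have := b.2; omega), Pi.single_apply,
        if_neg, smul_zero]
      intro h
      rw [Fin.ext_iff] at h
      apply hb
      apply Fin.ext
      simpa using h.symm
    · intro h; exact absurd (Finset.mem_univ _) h
  intro a
  obtain ⟨⟨i, l⟩, rfl⟩ := finProdFinEquiv.surjective a
  exact congrFun (poly_zero D.monP (fun l => c (finProdFinEquiv (i, l))) (h3 i)) l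

end lag

end Pool.Agent.N622.PJ
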