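import Pool.Agent.N622.PJ.RecD

/-!
# Project PJ (helper352), part REC: the first Lagrangian

By helper622.
-/

set_option autoImplicit false
set_option linter.all false

open Polynomial IsDedekindDomain Matrix WithZero
open scoped Classical

namespace Pool.Agent.N622.PJ

open Pool.Agent.N874.PP (Ov Ev Sq1 U0)
open Pool.Agent.N352.PJ

section gen

variable {O L : Type} [CommRing O] [IsDedekindDomain O] [Field L] [Algebra O L]
    [IsFractionRing O L] {𝔓 : HeightOneSpectrum O}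

theorem approx_mul {a b a' b' : L} (ha : 𝔓.valuation L a ≤ 1) (hb : 𝔓.valuation L b ≤ 1)
    (ha' : 𝔓.valuation L (a' - a) < 1) (hb' : 𝔓.valuation L (b' - b) < 1) :
    𝔓.valuation L (a' * b' - a * b) < 1 := by
  have e : a' * b' - a * b = (a' - a) * (b' - b) + (a' - a) * b + a * (b' - b) := by ring
  rw [e]
  refine Valuation.map_add_lt _ (Valuation.map_add_lt _ ?_ ?_) ?_
  · rw [map_mul]; exact mul_lt_one_of_nonneg_of_lt_one_left zero_le' ha' hb'.le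
  · rw [map_mul]; exact mul_lt_one_of_nonneg_of_lt_one_left zero_le' ha' hb
  · rw [map_mul, mul_comm]; exact mul_lt_one_of_nonneg_of_lt_one_left zero_le' hb' ha

theorem le_of_approx {a a' : L} (ha : 𝔓.valuation L a ≤ 1) (ha' : 𝔓.valuation L (a' - a) < 1) :
    𝔓.valuation L a' ≤ 1 := by
  have e : a' = (a' - a) + a := by ring
  rw [e]
  exact (Valuation.map_add _ _ _).trans (max_le ha'.le ha)

theorem eq_of_approx {a a' : L} (ha : 𝔓.valuation L a = 1) (ha' : 𝔓.valuation L (a' - a) < 1) :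
    𝔓.valuation L a' = 1 := by
  have h := Valuation.map_add_eq_of_lt_right (𝔓.valuation L) (ha'.trans_eq ha.symm)
  rw [sub_add_cancel] at h
  rw [h, ha]

end gen

section lag

variable {k K L O : Type} [Field k] [Field K] [Algebra k[X] K] [IsFractionRing k[X] K]
  [Field L] [Algebra K L] [Algebra k[X] L] [IsScalarTower k[X] K L] [CommRing O]
  [IsDedekindDomain O] [Algebra O L] [IsFractionRing O L] [Algebra k[X] O]
  [IsScalarTower k[X] O L] [IsIntegralClosure O k[X] L] {g : ℕ} {f : k[X][X]} {θ : L}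
  {S₁ : Finset k[X]} {𝔮 𝔭 : k[X] → HeightOneSpectrum O}

attribute [local instance] algF

theorem Dat.p_notMem (D : Dat θ S₁ 𝔮 𝔭) {Q : k[X]} (hQ : Q ∈ S₁) : 𝔭 Q ∉ S₁.image 𝔮 := by
  intro h
  obtain ⟨Q', hQ', h3⟩ := Finset.mem_image.1 h
  have h4 := D.tq Q' hQ'
  rw [h3] at h4
  exact absurd h4 (D.tp Q hQ).ne

/-- the element `β` -/
theorem Dat.exists_beta (D : Dat θ S₁ 𝔮 𝔭) {α : L} (hα : α ≠ 0) (hev : ∀ Q ∈ S₁, ¬ Ev (𝔮 Q) α) :
    ∃ β : L, β ≠ 0 ∧ ∀ Q ∈ S₁, (𝔮 Q).valuation L β ^ 2 = (𝔮 Q).valuation L α * exp (1 : ℤ) := by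
  have hQ0 : ∀ Q ∈ S₁, algebraMap k[X] L Q ≠ 0 := by
    intro Q hQ h0
    exact (D.irr Q hQ).ne_zero (D.inj (by rw [h0, map_zero]))
  have h1 : ∀ Q : k[X], ∃ n : ℤ, Q ∈ S₁ → (𝔮 Q).valuation L α = exp (-(2 * n + 1)) := by
    intro Q
    by_cases hQ : Q ∈ S₁
    · obtain ⟨m, hm⟩ := val_exp (𝔮 Q) hα
      rcases Int.even_or_odd' m with ⟨n, hn | hn⟩
      · exfalso
        apply hev Q hQ
        refine ⟨algebraMap k[X] L Q ^ n, ?_⟩
        rw [hm, map_zpow₀, D.vq Q hQ, ← WithZero.exp_zsmul, ← WithZero.exp_nsmul, hn]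
        congr 1
        simp
      · exact ⟨n, fun _ => by rw [hm, hn]⟩
    · exact ⟨0, fun h => absurd h hQ⟩
  choose n hn using h1
  refine ⟨∏ Q ∈ S₁, algebraMap k[X] L Q ^ (n Q), Finset.prod_ne_zero_iff.2 fun Q hQ =>
    zpow_ne_zero _ (hQ0 Q hQ), fun Q hQ => ?_⟩
  have h2 : (𝔮 Q).valuation L (∏ Q ∈ S₁, algebraMap k[X] L Q ^ (n Q)) = exp (-(n Q)) := by
    rw [← Finset.mul_prod_erase _ _ hQ, map_mul, map_zpow₀, D.vq Q hQ, map_prod,
      Finset.prod_eq_one, mul_one, ← WithZero.exp_zsmul]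
    · congr 1
      simp
    · intro Q' hQ'
      rw [map_zpow₀]
      have h3 := D.val_other (T := {Q'}) (Finset.singleton_subset_iff.2 (Finset.mem_of_mem_erase hQ'))
        (𝔓 := 𝔮 Q) (by
          intro Q'' hQ'' h4
          rw [Finset.mem_singleton] at hQ''
          subst hQ''
          exact Finset.ne_of_mem_erase hQ' (D.eq (Finset.mem_of_mem_erase hQ') hQ h4 (D.ovq Q hQ)))
      rw [Finset.prod_singleton] at h3
      rw [h3, _root_.one_zpow]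
  rw [h2, hn Q hQ, ← WithZero.exp_nsmul, ← exp_add]
  congr 1
  simp

variable (hI : S_INT) (hG : IsGen g K f θ) (hsq : Squarefree (dsc g f))

/-- the first Lagrangian is isotropic -/
theorem first_iso (D : Dat θ S₁ 𝔮 𝔭) {η : O}
    (hη : ∀ Q ∈ S₁, η - 1 ∈ (𝔮 Q).asIdeal ∧ η ∈ (𝔭 Q).asIdeal) {α β : L} (hα : α ≠ 0) (hβ0 : β ≠ 0)
    (hβ : ∀ Q ∈ S₁, (𝔮 Q).valuation L β ^ 2 = (𝔮 Q).valuation L α * exp (1 : ℤ)) {κ : O}
    (hκ : ∀ Q ∈ S₁, (𝔮 Q).valuation L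
      (algebraMap O L κ - algebraMap k[X] L (∏ Q ∈ S₁, Q) * β ^ 2 / α) < 1) {x x' : L} {ζ ζ' : O}
    (hx : ∀ 𝔓 : HeightOneSpectrum O, 𝔓.valuation L x ^ 2 ≤
        𝔓.valuation L α * (if 𝔓 ∈ S₁.image 𝔮 then exp (1 : ℤ) else 1))
    (hx' : ∀ 𝔓 : HeightOneSpectrum O, 𝔓.valuation L x' ^ 2 ≤
        𝔓.valuation L α * (if 𝔓 ∈ S₁.image 𝔮 then exp (1 : ℤ) else 1))
    (hζ : ∀ Q ∈ S₁, (𝔮 Q).valuation L (algebraMap O L ζ - x / β) < 1)
    (hζ' : ∀ Q ∈ S₁, (𝔮 Q).valuation L (algebraMap O L ζ' - x' / β) < 1)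
    (hy : ∃ y : k[X], hG.top (algebraMap k[X] L (∏ Q ∈ S₁, Q) * (x * x') / α) =
        algebraMap k[X] K y ∧ res (∏ Q ∈ S₁, Q) y = 0) :
    sL hI hG hsq D hη (redA S₁ 𝔮 κ * redA S₁ 𝔮 ζ * redA S₁ 𝔮 ζ') = 0 := by
  rw [← map_mul, ← map_mul, sL_redA]
  have hxx : ∀ 𝔓 : HeightOneSpectrum O, 𝔓.valuation L x * 𝔓.valuation L x' ≤
        𝔓.valuation L α * (if 𝔓 ∈ S₁.image 𝔮 then exp (1 : ℤ) else 1) := fun 𝔓 =>
    le_of_mul_le (hx 𝔓) (hx' 𝔓)
  have hva : ∀ 𝔓 : HeightOneSpectrum O, 0 < 𝔓.valuation L α := fun 𝔓 => zero_lt_iff.2 (val_ne 𝔓 hα)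
  have hY : ∀ 𝔓 : HeightOneSpectrum O, 𝔓.valuation L
      (algebraMap k[X] L (∏ Q ∈ S₁, Q) * (x * x') / α) ≤
        𝔓.valuation L (algebraMap k[X] L (∏ Q ∈ S₁, Q)) *
          (if 𝔓 ∈ S₁.image 𝔮 then exp (1 : ℤ) else 1) := by
    intro 𝔓
    rw [map_div₀, map_mul, map_mul, div_le_iff₀ (hva 𝔓), mul_assoc]
    refine mul_le_mul_right ?_ _
    rw [mul_comm _ (𝔓.valuation L α)]
    exact hxx 𝔓
  have hY1 : ∀ 𝔓 : HeightOneSpectrum O, 𝔓.valuation L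
      (algebraMap k[X] L (∏ Q ∈ S₁, Q) * (x * x') / α) ≤ 1 := by
    intro 𝔓
    refine (hY 𝔓).trans ?_
    by_cases h : 𝔓 ∈ S₁.image 𝔮
    · obtain ⟨Q, hQ, rfl⟩ := Finset.mem_image.1 h
      rw [if_pos h, D.valP hQ (D.ovq Q hQ), ← exp_add]
      simp
    · rw [if_neg h, mul_one]
      exact D.valP_le 𝔓
  obtain ⟨w, hw⟩ := HeightOneSpectrum.mem_integers_of_valuation_le_one L _ hY1
  obtain ⟨y, hy1, hy2⟩ := hy
  have htw : tp hI hG hsq w = y := by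
    apply IsFractionRing.injective k[X] K
    rw [tp_spec, hw, hy1]
  rw [lam_congr hI hG hsq D (w := w), htw, hy2]
  apply D.dvd
  intro Q hQ
  constructor
  · have h1 : η * (κ * ζ * ζ') - w = (η - 1) * (κ * ζ * ζ') + (κ * ζ * ζ' - w) := by ring
    rw [h1]
    refine Ideal.add_mem _ (Ideal.mul_mem_right _ _ (hη Q hQ).1) ?_
    rw [mem_iff_val (L := L), map_sub, map_mul, map_mul, hw]
    have h2 : algebraMap k[X] L (∏ Q ∈ S₁, Q) * (x * x') / α =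
        (algebraMap k[X] L (∏ Q ∈ S₁, Q) * β ^ 2 / α) * (x / β) * (x' / β) := by
      field_simp
    rw [h2]
    have hvb : 0 < (𝔮 Q).valuation L β := zero_lt_iff.2 (val_ne _ hβ0)
    have hu : ∀ z : L, (∀ 𝔓 : HeightOneSpectrum O, 𝔓.valuation L z ^ 2 ≤
        𝔓.valuation L α * (if 𝔓 ∈ S₁.image 𝔮 then exp (1 : ℤ) else 1)) →
        (𝔮 Q).valuation L (z / β) ≤ 1 := by
      intro z hz
      rw [map_div₀, div_le_one₀ hvb]
      apply le_of_sq_le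
      rw [hβ Q hQ]
      have h3 := hz (𝔮 Q)
      rwa [if_pos (Finset.mem_image_of_mem 𝔮 hQ)] at h3
    have hk1 : (𝔮 Q).valuation L (algebraMap k[X] L (∏ Q ∈ S₁, Q) * β ^ 2 / α) = 1 := by
      rw [map_div₀, map_mul, map_pow, hβ Q hQ, D.valP hQ (D.ovq Q hQ),
        div_eq_one_iff_eq (val_ne _ hα), mul_left_comm, ← exp_add]
      simp
    have h3 := approx_mul hk1.le (hu x hx) (hκ Q hQ) (hζ Q hQ)
    have h4 : (𝔮 Q).valuation L (algebraMap k[X] L (∏ Q ∈ S₁, Q) * β ^ 2 / α * (x / β)) ≤ 1 := by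
      rw [map_mul, hk1, one_mul]
      exact hu x hx
    exact approx_mul h4 (hu x' hx') h3 (hζ' Q hQ)
  · refine Ideal.sub_mem _ (Ideal.mul_mem_right _ _ (hη Q hQ).2) ?_
    rw [mem_iff_val (L := L), hw]
    refine lt_of_le_of_lt (hY (𝔭 Q)) ?_
    rw [if_neg (D.p_notMem hQ), mul_one, D.valP hQ (D.ovp Q hQ), lt_one_iff]

/-- the first Lagrangian is independent -/
theorem first_ind (D : Dat θ S₁ 𝔮 𝔭) {α β : L} (hα : α ≠ 0) (hβ0 : β ≠ 0)
    (hβ : ∀ Q ∈ S₁, (𝔮 Q).valuation L β ^ 2 = (𝔮 Q).valuation L α * exp (1 : ℤ)) {d : ℕ}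
    {x : Fin d → L} {ζ : Fin d → O}
    (hx : ∀ a, ∀ 𝔓 : HeightOneSpectrum O, 𝔓.valuation L (x a) ^ 2 ≤
        𝔓.valuation L α * (if 𝔓 ∈ S₁.image 𝔮 then exp (1 : ℤ) else 1))
    (hζ : ∀ a, ∀ Q ∈ S₁, (𝔮 Q).valuation L (algebraMap O L (ζ a) - x a / β) < 1)
    (hc : ∀ c : Fin d → k,
        (∀ 𝔓 : HeightOneSpectrum O,
          𝔓.valuation L (∑ a, algebraMap k[X] L (C (c a)) * x a) ^ 2 ≤
            𝔓.valuation L α * (if 𝔓 ∈ S₁.image 𝔮 then exp (-1 : ℤ) else 1)) → c = 0) :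
    LinearIndependent k (fun a => redA S₁ 𝔮 (ζ a)) := by
  rw [Fintype.linearIndependent_iff]
  intro c h0
  simp only [redA_smul] at h0
  rw [← map_sum] at h0
  refine fun a => congrFun (hc c fun 𝔓 => ?_) a
  have hC : ∀ a, 𝔓.valuation L (algebraMap k[X] L (C (c a))) ≤ 1 := by
    intro a
    rw [IsScalarTower.algebraMap_apply k[X] O L]
    exact 𝔓.valuation_le_one _
  by_cases h : 𝔓 ∈ S₁.image 𝔮
  · obtain ⟨Q, hQ, rfl⟩ := Finset.mem_image.1 h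
    rw [if_pos h]
    have h1 := congrFun h0 ⟨Q, hQ⟩
    rw [redA_apply, Pi.zero_apply, red_zero, mem_iff_val (L := L), map_sum] at h1
    have h2 : (𝔮 Q).valuation L (∑ a, algebraMap k[X] L (C (c a)) * (x a / β)) < 1 := by
      have h3 : (∑ a, algebraMap k[X] L (C (c a)) * (x a / β)) =
          (∑ a, algebraMap O L (algebraMap k[X] O (C (c a)) * ζ a)) -
            ∑ a, algebraMap k[X] L (C (c a)) * (algebraMap O L (ζ a) - x a / β) := by
        rw [← Finset.sum_sub_distrib]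
        refine Finset.sum_congr rfl fun a _ => ?_
        rw [map_mul, mapO]
        ring
      rw [h3]
      refine lt_of_le_of_lt (Valuation.map_sub _ _ _) (max_lt h1 ?_)
      refine Valuation.map_sum_lt _ one_ne_zero fun a _ => ?_
      rw [map_mul, mul_comm]
      exact mul_lt_one_of_nonneg_of_lt_one_left zero_le' (hζ a Q hQ) (hC a)
    have h4 : (∑ a, algebraMap k[X] L (C (c a)) * x a) =
        (∑ a, algebraMap k[X] L (C (c a)) * (x a / β)) * β := by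
      rw [Finset.sum_mul]
      refine Finset.sum_congr rfl fun a _ => ?_
      field_simp
    rw [h4, map_mul, mul_pow, hβ Q hQ]
    rw [lt_one_iff] at h2
    have h5 : (𝔮 Q).valuation L (∑ a, algebraMap k[X] L (C (c a)) * (x a / β)) ^ 2 ≤
        exp (-1 : ℤ) ^ 2 := pow_le_pow_left₀ zero_le' h2 2
    calc _ ≤ exp (-1 : ℤ) ^ 2 * ((𝔮 Q).valuation L α * exp (1 : ℤ)) := mul_le_mul_left h5 _
      _ = (𝔮 Q).valuation L α * exp (-1 : ℤ) := by
        rw [mul_left_comm, ← WithZero.exp_nsmul, ← exp_add]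
        congr 2
  · rw [if_neg h]
    apply sum_sq_le
    intro a _
    have h1 := hx a 𝔓
    rw [if_neg h] at h1
    rw [map_mul, mul_pow]
    refine le_trans ?_ h1
    calc _ ≤ 1 * 𝔓.valuation L (x a) ^ 2 := mul_le_mul_left (pow_le_one₀ zero_le' (hC a)) _
      _ = _ := one_mul _

end lag

end Pool.Agent.N622.PJ
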